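import Pool.Agent.R928.NK.Var

/-! Random necklaces with two beads of each of `t` types: the minimum number of cuts of a fair split between
two thieves, divided by `t`, converges in probability to a constant. -/

set_option autoImplicit false
set_option linter.all false

namespace Pool.Agent.Results.MP_fcaed2_pr.Limit

open Finset Filter Topology Pool.Agent.R928.NK

/-- Necklaces with two beads of each of `t` types: words of length `2t` in which each letter occurs twice. -/
def Necklace (t : ℕ) : Type :=
  {a : Fin (2 * t) → Fin t // ∀ c : Fin t, (Finset.univ.filter fun j => a j = c).card = 2}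

/-- The cuts in the set `K` of gaps (gap `j` lies between the beads `j` and `j + 1`) give a fair split:
the beads can be given to two thieves (`x j` is the thief who gets the bead `j`) in such a way that beads which
are adjacent and not separated by a cut go to the same thief, and each thief gets exactly one bead of each type. -/
def FairSplit {t : ℕ} (a : Necklace t) (K : Finset ℕ) : Prop :=
  ∃ x : Fin (2 * t) → Bool,
    (∀ i j : Fin (2 * t), (j : ℕ) = i + 1 → (i : ℕ) ∉ K → x i = x j) ∧
    ∀ (c : Fin t) (b : Bool), ∃! j, a.1 j = c ∧ x j = b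

/-- The minimum number of cuts of a fair split. -/
noncomputable def X {t : ℕ} (a : Necklace t) : ℕ :=
  sInf {r | ∃ K : Finset ℕ, K ⊆ Finset.range (2 * t - 1) ∧ K.card = r ∧ FairSplit a K}

/-- the necklace of a matching -/
def nu {t : ℕ} (σ : Fin t × Bool ≃ Fin (2 * t)) : Necklace t :=
  ⟨fun j => (σ.symm j).1, by
    intro c
    have : (Finset.univ.filter fun j => (σ.symm j).1 = c) = {σ (c, false), σ (c, true)} := by
      ext j
      rw [Finset.mem_filter, Finset.mem_insert, Finset.mem_singleton]
      constructor
      · rintro ⟨_, h⟩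
        rcases hb : σ.symm j with ⟨c', b⟩
        rw [hb] at h
        simp only at h
        subst h
        have : j = σ (c', b) := by rw [← hb, Equiv.apply_symm_apply]
        rcases b with _ | _
        · left; exact this
        · right; exact this
      · rintro (h | h)
        · rw [h, Equiv.symm_apply_apply]
          exact ⟨Finset.mem_univ _, rfl⟩
        · rw [h, Equiv.symm_apply_apply]
          exact ⟨Finset.mem_univ _, rfl⟩
    rw [this, Finset.card_pair]
    intro h
    have := σ.injective h
    simp at this⟩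

theorem nu_apply {t : ℕ} (σ : Fin t × Bool ≃ Fin (2 * t)) (p : Fin t × Bool) : (nu σ).1 (σ p) = p.1 := by
  change (σ.symm (σ p)).1 = p.1
  rw [Equiv.symm_apply_apply]

theorem ch_eq_card {n : ℕ} (x : Fin n → Bool) :
    ch n x = ((Finset.range (n - 1)).filter fun j => ext x j ≠ ext x (j + 1)).card := by
  unfold ch
  rw [Finset.card_filter]
  apply Finset.sum_congr rfl
  intro j _
  by_cases h : ext x j = ext x (j + 1)
  · simp [h]
  · simp [h]

theorem X_le {t : ℕ} (σ : Fin t × Bool ≃ Fin (2 * t)) (x : Fin (2 * t) → Bool) :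
    X (nu σ) ≤ ch (2 * t) x + pe σ x := by
  classical
  -- flip one endpoint of each violated pair
  set S : Finset (Fin (2 * t)) := (Finset.univ.filter fun i : Fin t => x (σ (i, false)) = x (σ (i, true))).image
    (fun i => σ (i, false)) with hS
  set x' : Fin (2 * t) → Bool := fun j => if j ∈ S then !(x j) else x j with hx'
  have hSc : 2 * S.card ≤ pe σ x := by
    unfold pe
    have h1 : S.card ≤ (Finset.univ.filter fun i : Fin t => x (σ (i, false)) = x (σ (i, true))).card := Finset.card_image_le
    have h2 : ∑ i : Fin t, (if x (σ (i, false)) = x (σ (i, true)) then 2 else 0) =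
        2 * (Finset.univ.filter fun i : Fin t => x (σ (i, false)) = x (σ (i, true))).card := by
      rw [Finset.card_filter, Finset.mul_sum]
      apply Finset.sum_congr rfl
      intro i _
      split_ifs <;> rfl
    omega
  have hch := ch_flip x x' S (by
    intro j hj
    rw [hx']
    simp only [if_neg hj])
  have hmemf : ∀ c, σ (c, false) ∈ S ↔ x (σ (c, false)) = x (σ (c, true)) := by
    intro c
    rw [hS, Finset.mem_image]
    constructor
    · rintro ⟨i, hi, hic⟩
      have := σ.injective hic
      simp only [Prod.mk.injEq, and_true] at this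
      rw [this] at hi
      exact (Finset.mem_filter.mp hi).2
    · intro h
      exact ⟨c, Finset.mem_filter.mpr ⟨Finset.mem_univ _, h⟩, rfl⟩
  have hmemt : ∀ c, σ (c, true) ∉ S := by
    intro c hc
    rw [hS, Finset.mem_image] at hc
    obtain ⟨i, _, hic⟩ := hc
    have := σ.injective hic
    simp at this
  have hne : ∀ c, x' (σ (c, false)) ≠ x' (σ (c, true)) := by
    intro c
    rw [hx']
    simp only [if_neg (hmemt c)]
    by_cases h : x (σ (c, false)) = x (σ (c, true))
    · rw [if_pos ((hmemf c).mpr h), h]
      simp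
    · rw [if_neg fun h' => h ((hmemf c).mp h')]
      exact h
  have hX : X (nu σ) ≤ ch (2 * t) x' := by
    unfold X
    apply Nat.sInf_le
    refine ⟨(Finset.range (2 * t - 1)).filter fun j => ext x' j ≠ ext x' (j + 1), Finset.filter_subset _ _,
      (ch_eq_card x').symm, x', ?_, ?_⟩
    · intro i j hij hi
      rw [Finset.mem_filter, not_and] at hi
      have h1 : (i : ℕ) ∈ Finset.range (2 * t - 1) := by
        rw [Finset.mem_range]
        have := j.2
        omega
      have h2 := not_not.mp (hi h1)
      unfold Pool.Agent.R928.NK.ext at h2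
      rw [dif_pos i.2, dif_pos (by rw [← hij]; exact j.2)] at h2
      have h3 : (⟨(i : ℕ) + 1, by rw [← hij]; exact j.2⟩ : Fin (2 * t)) = j := Fin.ext hij.symm
      rw [h3] at h2
      exact h2
    · intro c b
      have huniq : ∀ j, (nu σ).1 j = c → j = σ (c, false) ∨ j = σ (c, true) := by
        intro j hj
        obtain ⟨p, rfl⟩ := σ.surjective j
        rw [nu_apply] at hj
        obtain ⟨p1, p2⟩ := p
        simp only at hj
        subst hj
        rcases p2 with _ | _
        · left; rfl
        · right; rfl
      by_cases hb : x' (σ (c, false)) = b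
      · refine ⟨σ (c, false), ⟨nu_apply σ _, hb⟩, ?_⟩
        rintro j ⟨hj1, hj2⟩
        rcases huniq j hj1 with h | h
        · exact h
        · rw [h] at hj2
          exact (hne c (hb.trans hj2.symm)).elim
      · have hb' : x' (σ (c, true)) = b := by
          have := hne c
          revert hb this
          cases x' (σ (c, false)) <;> cases x' (σ (c, true)) <;> cases b <;> simp
        refine ⟨σ (c, true), ⟨nu_apply σ _, hb'⟩, ?_⟩
        rintro j ⟨hj1, hj2⟩
        rcases huniq j hj1 with h | h
        · rw [h] at hj2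
          exact (hb hj2).elim
        · exact h
  omega

theorem X_eq {t : ℕ} (σ : Fin t × Bool ≃ Fin (2 * t)) : (X (nu σ) : ℝ) = FF σ := by
  unfold FF
  have h : X (nu σ) = mE (fun y => ch (2 * t) y + pe σ y) := by
    apply le_antisymm
    · obtain ⟨x, hx⟩ := exists_mE (fun y => ch (2 * t) y + pe σ y)
      rw [← hx]
      exact X_le σ x
    · have hne : {r | ∃ K : Finset ℕ, K ⊆ Finset.range (2 * t - 1) ∧ K.card = r ∧ FairSplit (nu σ) K}.Nonempty := by
        refine ⟨_, Finset.range (2 * t - 1), Finset.Subset.refl _, rfl, fun j => (σ.symm j).2, ?_, ?_⟩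
        · intro i j hij hi
          rw [Finset.mem_range] at hi
          have := j.2
          omega
        · intro c b
          refine ⟨σ (c, b), ⟨nu_apply σ _, by simp⟩, ?_⟩
          rintro j ⟨hj1, hj2⟩
          have h1 : (σ.symm j).1 = c := hj1
          rw [← Equiv.symm_apply_eq]
          exact Prod.ext h1 hj2
      obtain ⟨K, hK, hKc, x, hx1, hx2⟩ := Nat.sInf_mem hne
      have hpe : pe σ x = 0 := by
        unfold pe
        apply Finset.sum_eq_zero
        intro c _
        rw [if_neg]
        intro heq
        obtain ⟨j, _, hj⟩ := hx2 c (x (σ (c, true)))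
        have h1 := hj (σ (c, false)) ⟨nu_apply σ _, heq⟩
        have h2 := hj (σ (c, true)) ⟨nu_apply σ _, rfl⟩
        have := σ.injective (h1.trans h2.symm)
        simp at this
      have hch : ch (2 * t) x ≤ K.card := by
        rw [ch_eq_card]
        apply Finset.card_le_card
        intro j hj
        rw [Finset.mem_filter, Finset.mem_range] at hj
        by_contra hjK
        apply hj.2
        unfold Pool.Agent.R928.NK.ext
        rw [dif_pos (by omega), dif_pos (by omega)]
        exact hx1 ⟨j, by omega⟩ ⟨j + 1, by omega⟩ rfl hjK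
      have h3 := mE_le (fun y => ch (2 * t) y + pe σ y) x
      have h4 : X (nu σ) = K.card := hKc.symm
      rw [h4]
      simp only [hpe] at h3
      omega
  rw [h]

theorem nu_surj {t : ℕ} (a : Necklace t) : ∃ σ, nu σ = a := by
  have h1 : ∀ c : Fin t, Nonempty (Bool ≃ {j // a.1 j = c}) := by
    intro c
    refine ⟨Fintype.equivOfCardEq ?_⟩
    rw [Fintype.card_bool, Fintype.card_subtype, a.2 c]
  let σ : Fin t × Bool ≃ Fin (2 * t) :=
    ((Equiv.sigmaEquivProd (Fin t) Bool).symm.trans (Equiv.sigmaCongrRight fun c => (h1 c).some)).trans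
      (Equiv.sigmaFiberEquiv a.1)
  refine ⟨σ, ?_⟩
  apply Subtype.ext
  funext j
  obtain ⟨p, rfl⟩ := σ.surjective j
  rw [nu_apply]
  exact (((h1 p.1).some p.2).2).symm

theorem nu_trans {t : ℕ} (σ τ τ' : Fin t × Bool ≃ Fin (2 * t)) (h : nu σ = nu τ) :
    nu (σ.trans (τ.symm.trans τ')) = nu τ' := by
  apply Subtype.ext
  funext j
  obtain ⟨p, rfl⟩ := τ'.surjective j
  rw [nu_apply]
  change (σ.symm (τ (τ'.symm (τ' p)))).1 = p.1
  rw [Equiv.symm_apply_apply]
  have h2 : (nu σ).1 (τ p) = (nu τ).1 (τ p) := by rw [h]
  rw [nu_apply] at h2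
  exact h2

noncomputable instance (t : ℕ) : Fintype (Necklace t) := by
  classical
  unfold Necklace
  infer_instance

/-- all fibres have the same number of elements -/
theorem fibre_card {t : ℕ} (a b : Necklace t) :
    Nat.card {σ : Fin t × Bool ≃ Fin (2 * t) // nu σ = a} = Nat.card {σ : Fin t × Bool ≃ Fin (2 * t) // nu σ = b} := by
  obtain ⟨τ, rfl⟩ := nu_surj a
  obtain ⟨τ', rfl⟩ := nu_surj b
  apply Nat.card_congr
  exact
    { toFun := fun σ => ⟨σ.1.trans (τ.symm.trans τ'), nu_trans _ _ _ σ.2⟩
      invFun := fun σ => ⟨σ.1.trans (τ'.symm.trans τ), nu_trans _ _ _ σ.2⟩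
      left_inv := by
        rintro ⟨σ, h⟩
        apply Subtype.ext
        ext p
        simp
      right_inv := by
        rintro ⟨σ, h⟩
        apply Subtype.ext
        ext p
        simp }

theorem count_fibre {α β : Type} [Finite α] [Finite β] (f : α → β) (k : ℕ)
    (hk : ∀ b, Nat.card {a // f a = b} = k) (P : β → Prop) :
    Nat.card {a // P (f a)} = Nat.card {b // P b} * k := by
  classical
  haveI := Fintype.ofFinite α
  haveI := Fintype.ofFinite β
  have e : {a // P (f a)} ≃ Σ b : {b // P b}, {a // f a = b.1} :=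
    { toFun := fun a => ⟨⟨f a.1, a.2⟩, ⟨a.1, rfl⟩⟩
      invFun := fun p => ⟨p.2.1, by rw [p.2.2]; exact p.1.2⟩
      left_inv := by rintro ⟨a, h⟩; rfl
      right_inv := by
        rintro ⟨⟨b, hb⟩, ⟨a, ha⟩⟩
        cases ha
        rfl }
  rw [Nat.card_congr e, Nat.card_sigma]
  simp only [hk]
  rw [Finset.sum_const, Finset.card_univ, Nat.card_eq_fintype_card, smul_eq_mul]

/-- There is a constant `c` such that for a uniformly random necklace with two beads of each of `t` types the
minimum number `X` of cuts of a fair split between two thieves satisfies `|X / t - c| < ε` with probability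
tending to `1`, for each `ε > 0`. -/
theorem result : ∃ c : ℝ, ∀ ε : ℝ, 0 < ε →
    Tendsto (fun t : ℕ => (Nat.card {a : Necklace t // |(X a : ℝ) / t - c| < ε} : ℝ) / (Nat.card (Necklace t) : ℝ))
      atTop (𝓝 1) := by
  obtain ⟨L, hL⟩ := ff_lim
  refine ⟨L, fun ε hε => ?_⟩
  refine (FF_conc L hL ε hε).congr fun t => ?_
  obtain ⟨σ0⟩ := instNeMatch t
  set k := Nat.card {σ : Fin t × Bool ≃ Fin (2 * t) // nu σ = nu σ0} with hk
  have hk' : ∀ b, Nat.card {σ : Fin t × Bool ≃ Fin (2 * t) // nu σ = b} = k := fun b => fibre_card _ _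
  have hkpos : 0 < k := by
    rw [hk]
    haveI : Nonempty {σ : Fin t × Bool ≃ Fin (2 * t) // nu σ = nu σ0} := ⟨⟨σ0, rfl⟩⟩
    exact Nat.card_pos
  have h1 := count_fibre (nu (t := t)) k hk' (fun a => |(X a : ℝ) / t - L| < ε)
  have h2 := count_fibre (nu (t := t)) k hk' (fun a => True)
  have h3 : Nat.card {σ : Fin t × Bool ≃ Fin (2 * t) // |FF σ / t - L| < ε} =
      Nat.card {σ : Fin t × Bool ≃ Fin (2 * t) // |(X (nu σ) : ℝ) / t - L| < ε} := by
    simp only [X_eq]
  have h4 : Nat.card (Fin t × Bool ≃ Fin (2 * t)) = Nat.card (Necklace t) * k := by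
    have e1 : Nat.card {σ : Fin t × Bool ≃ Fin (2 * t) // True} = Nat.card (Fin t × Bool ≃ Fin (2 * t)) :=
      Nat.card_congr (Equiv.subtypeUnivEquiv fun _ => trivial)
    have e2 : Nat.card {a : Necklace t // True} = Nat.card (Necklace t) :=
      Nat.card_congr (Equiv.subtypeUnivEquiv fun _ => trivial)
    rw [← e1, ← e2]
    exact h2
  rw [h3, h1, h4]
  push_cast
  have hk0 : (k : ℝ) ≠ 0 := by positivity
  rw [mul_div_mul_right _ _ hk0]

end Pool.Agent.Results.MP_fcaed2_pr.Limit
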